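import Pool.Agent.H255R3.OS.Main

/-!
# Alternating reachability when the positions of one player have bounded independence number

Deciding who wins a reachability game (alternating graph accessibility) is complete for `P`. We show
that the winner is defined by a formula of first-order logic with transitive closure, without
order, on all finite game graphs in which the positions of one of the two players contain no
`k + 1` pairwise non-adjacent vertices; the positions of the other player, and the arcs between
positions of different players, are arbitrary. Queries of this logic are computable in
nondeterministic logarithmic space. For `k = 0` the class contains the `NL`-complete reachability
problem and its complement.

Proof. Suppose the universal positions are the restricted ones. The universal won positions
other than the target are closed under arcs to such positions, and by a theorem of Chvatal and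
Lovasz every digraph has an independent set from which all vertices are reachable in at most two
steps, so this set is a union of at most `k` balls of radius two. Given this set, the existential
won positions are those from which the existential player can go by moves of his own only to the
target or into the set. If the existential positions are the restricted ones, the existential lost
positions are a union of at most `k` balls, and given this set a universal position is lost if and
only if the universal player can go from it, by moves of his own only and avoiding the target, into
the set, to a position without moves, or to a cycle. In both cases a position is lost if and only
if at most `k` vertices exist for which the set determined by them contains the position, does not
contain the target, and cannot be left by the existential player.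
-/

set_option autoImplicit false

namespace Pool.Agent.Results.MP_994c82_lc.OneSidedAlternation

open Pool.Agent.H255R3.OS
open Pool.Agent.H255R3.AR (Win IndepLe)

/-- For every `k` there is a formula `φ(v, t)` of first-order logic with transitive closure over the
arc relation `E` and the set `U` of universal positions which holds at all won positions in all
games and which holds exactly at the won positions in all finite games in which every independent
set of existential positions has at most `k` elements or every independent set of universal
positions different from the target has at most `k` elements. -/
theorem result (k : ℕ) : ∃ φ : Fo 2,
    (∀ (V : Type) (E : V → V → Prop) (U : V → Prop) (v t : V), Win E U t v →
      φ.Holds E U ![v, t]) ∧
    ∀ (V : Type) [Finite V] (E : V → V → Prop) (U : V → Prop) (t : V),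
      (IndepLe E (fun w => ¬ U w) k ∨ IndepLe E (fun w => U w ∧ w ≠ t) k) →
      ∀ v : V, φ.Holds E U ![v, t] ↔ Win E U t v :=
  main k

end Pool.Agent.Results.MP_994c82_lc.OneSidedAlternation
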