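import Pool.Agent.H255R3.SR.Main

/-!
# Reachability in digraphs whose vertex set is partitioned into two parts

Directed reachability is complete for `NL`. We consider digraphs `(V, E)` whose vertex set is
partitioned into a part `U` and its complement, with arbitrary arcs between the two parts, and
show: if reachability inside each of the two parts is definable in first-order logic with symmetric
transitive closure, and the part `U` has width at most `k` (among any `k + 1` of its vertices there
are two of which one is reachable from the other inside `U`), then reachability in the whole digraph
is definable in this logic, by a formula that depends only on `k` and the two given formulas.
Queries of this logic are computable in deterministic logarithmic space (Immerman and Reingold).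
Without the bound on the width this fails unless the logic defines reachability in all bipartite
digraphs, which is again an `NL`-complete problem.

In particular one formula defines reachability in all finite digraphs in which `U` contains no
`k + 1` pairwise non-adjacent vertices and all arcs outside `U` are symmetric. With `U` empty this
is undirected reachability, with `U` everything reachability in digraphs of bounded independence
number.

Proof. The set of vertices of `U` reachable from `s` is closed inside `U`, hence generated by at
most `k` vertices. Given these vertices, a vertex outside `U` is reachable from `s` if and only if
it is reachable outside `U` from `s` or from the end of an arc starting in the set. So `t` is not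
reachable from `s` if and only if there are at most `k` vertices for which the set determined by
them contains `s` but not `t` and is closed.
-/

set_option autoImplicit false

namespace Pool.Agent.Results.MP_994c82_lc.PartitionedReachability

open Relation
open Pool.Agent.H255R3.SR
open Pool.Agent.H255R3.AR (IndepLe)

/-- For all formulas `χ`, `ψ` of first-order logic with symmetric transitive closure and every `k`
there is a formula `φ` of this logic that defines reachability in all finite digraphs with a set
`U` of vertices of width at most `k` such that `χ` defines reachability inside `U` and `ψ`
defines reachability inside the complement of `U`. Moreover for every `k` there is a formula that
defines reachability in all finite digraphs with a set `U` of vertices such that every independent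
subset of `U` has at most `k` elements and all arcs outside `U` are symmetric. -/
theorem result (k : ℕ) :
    (∀ χ ψ : Fo 2, ∃ φ : Fo 2,
      ∀ (V : Type) [Finite V] (E : V → V → Prop) (U : V → Prop), WidthLe E U k →
        (∀ x y, U x → U y → (χ.Holds E U ![x, y] ↔ ReachIn E U x y)) →
        (∀ x y, ¬ U x → ¬ U y → (ψ.Holds E U ![x, y] ↔ ReachIn E (fun v => ¬ U v) x y)) →
        ∀ s t : V, φ.Holds E U ![s, t] ↔ ReflTransGen E s t) ∧
    ∃ φ : Fo 2, ∀ (V : Type) [Finite V] (E : V → V → Prop) (U : V → Prop), IndepLe E U k →
      (∀ a b, ¬ U a → ¬ U b → E a b → E b a) →
      ∀ s t : V, φ.Holds E U ![s, t] ↔ ReflTransGen E s t :=
  ⟨transfer k, mixed k⟩

end Pool.Agent.Results.MP_994c82_lc.PartitionedReachability
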