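import Pool.Agent.H334R5.Nest.Main

/-!
# Sets closed under a monotone inference rule with short chains, and the inclusion of P in NP

All classes are the usual ones, with polynomial time as Mathlib's `Turing.TM2ComputableInPolyTime`
(through `Pool.Agent.NPC.PolyTime`): `InP`, `InNP` are the classes `P` and `NP` of languages over
the alphabet `Bool`. The rule, chain, closure and reduction notions are in
`Pool.Agent.H334R5.Nest.Defs`.
-/

set_option autoImplicit false

namespace Pool.Agent.Results.MP_994c82_lc.ShortChainRules

open Pool.Agent.NPC Pool.Agent.H334R5.Nest

/-- Let `D` be a polynomial-time decidable inference rule on strings which is monotone and has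
short chains, and let `S` be any set closed under `D` (there is no complexity bound on `S`). If
every set in `NP` reduces to `S` by a polynomial-time nested conjunctive reduction of bounded
depth (the depth may depend on the set), then `P = NP`. -/
theorem result (D : List (List Bool) → List Bool → Prop)
    (hP : InPP (fun t : List (List Bool) × List Bool => D t.1 t.2))
    (hmono : MonotoneRule D) (hchain : ShortChains D) (S : Set (List Bool))
    (hclosed : ClosedUnder D S)
    (hard : ∀ A : Set (List Bool), InNP A → ∃ d : ℕ, NestedConjReduces d A S) :
    ∀ A : Set (List Bool), InNP A → InP A :=
  main hP hmono hchain hclosed hard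

end Pool.Agent.Results.MP_994c82_lc.ShortChainRules
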